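import Mathlib

/-!
MP_9fa5c3_co: covers of 2-coloured cocktail-party graphs by two monochromatic subgraphs of
diameter at most 2. Abstract setting and first lemmas.
-/

namespace Pool.Agent.T6.H98.CP

/-- A 2-coloured complete graph minus a perfect matching: `p` is the partner, `R` and `B` are red
and blue adjacency. -/
structure Col (V : Type*) where
  p : V → V
  pp : ∀ x, p (p x) = x
  R : V → V → Prop
  B : V → V → Prop
  Rs : ∀ {x y}, R x y → R y x
  Bs : ∀ {x y}, B x y → B y x
  Rx : ∀ x, ¬ R x x
  Bx : ∀ x, ¬ B x x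
  Rp : ∀ x, ¬ R x (p x)
  Bp : ∀ x, ¬ B x (p x)
  RB : ∀ {x y}, R x y → B x y → False
  tot : ∀ x y, x ≠ y → y ≠ p x → R x y ∨ B x y

/-- distance at most two inside `S` -/
def Near {V : Type*} (C : V → V → Prop) (S : V → Prop) (x y : V) : Prop :=
  x = y ∨ C x y ∨ ∃ z, S z ∧ C z x ∧ C z y

/-- `S` spans a subgraph of diameter at most two -/
def Good {V : Type*} (C : V → V → Prop) (S : V → Prop) : Prop :=
  ∀ x, S x → ∀ y, S y → Near C S x y

variable {V : Type*}

theorem near_refl {C : V → V → Prop} {S : V → Prop} (x : V) : Near C S x x := Or.inl rfl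

theorem near_eq {C : V → V → Prop} {S : V → Prop} {x y a : V} (hx : x = a) (hy : y = a) :
    Near C S x y := Or.inl (hx.trans hy.symm)

theorem near_adj {C : V → V → Prop} {S : V → Prop} {x y : V} (h : C x y) : Near C S x y :=
  Or.inr (Or.inl h)

theorem near_hub {C : V → V → Prop} {S : V → Prop} {x y : V} (z : V) (h : S z)
    (h1 : C z x) (h2 : C z y) : Near C S x y := Or.inr (Or.inr ⟨z, h, h1, h2⟩)

/-- adjacency to a named element on the left -/
theorem near_l {C : V → V → Prop} {S : V → Prop} {x y a : V} (hx : x = a) (h : C a y) :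
    Near C S x y := Or.inr (Or.inl (hx ▸ h))

theorem near_symm {C : V → V → Prop} (hC : ∀ {x y}, C x y → C y x) {S : V → Prop} {x y : V}
    (h : Near C S x y) : Near C S y x := by
  rcases h with h | h | ⟨z, h, h1, h2⟩
  · exact Or.inl h.symm
  · exact Or.inr (Or.inl (hC h))
  · exact Or.inr (Or.inr ⟨z, h, h2, h1⟩)

namespace Col

variable (K : Col V)

/-- a (2,2)-cover -/
def Cover : Prop := ∃ S T : V → Prop, (Good K.R S ∨ Good K.B S) ∧ (Good K.R T ∨ Good K.B T) ∧
  ∀ x, S x ∨ T x

variable {K}

theorem ppne (x : V) : K.p (K.p x) = x := K.pp x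

theorem Rne {x y : V} (h : K.R x y) : x ≠ y := fun e => K.Rx x (by rw [← e] at h; exact h)

theorem Bne {x y : V} (h : K.B x y) : x ≠ y := fun e => K.Bx x (by rw [← e] at h; exact h)

theorem Rnp {x y : V} (h : K.R x y) : y ≠ K.p x := fun e => K.Rp x (by rw [e] at h; exact h)

theorem Bnp {x y : V} (h : K.B x y) : y ≠ K.p x := fun e => K.Bp x (by rw [e] at h; exact h)

theorem good_starR (a : V) : Good K.R (fun x => x = a ∨ K.R a x) := by
  rintro x (hx | hx) y (hy | hy)
  · exact near_eq hx hy
  · exact near_l hx hy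
  · exact near_symm K.Rs (near_l hy hx)
  · exact near_hub a (Or.inl rfl) hx hy

theorem good_starB (a : V) : Good K.B (fun x => x = a ∨ K.B a x) := by
  rintro x (hx | hx) y (hy | hy)
  · exact near_eq hx hy
  · exact near_l hx hy
  · exact near_symm K.Bs (near_l hy hx)
  · exact near_hub a (Or.inl rfl) hx hy

/-- two stars -/
theorem cover_RR {a b : V} (h : ∀ x, x = a ∨ K.R a x ∨ x = b ∨ K.R b x) : K.Cover :=
  ⟨_, _, Or.inl (good_starR a), Or.inl (good_starR b), fun x => by
    rcases h x with h | h | h | h
    · exact Or.inl (Or.inl h)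
    · exact Or.inl (Or.inr h)
    · exact Or.inr (Or.inl h)
    · exact Or.inr (Or.inr h)⟩

theorem cover_BB {a b : V} (h : ∀ x, x = a ∨ K.B a x ∨ x = b ∨ K.B b x) : K.Cover :=
  ⟨_, _, Or.inr (good_starB a), Or.inr (good_starB b), fun x => by
    rcases h x with h | h | h | h
    · exact Or.inl (Or.inl h)
    · exact Or.inl (Or.inr h)
    · exact Or.inr (Or.inl h)
    · exact Or.inr (Or.inr h)⟩

theorem cover_BR {a b : V} (h : ∀ x, x = a ∨ K.B a x ∨ x = b ∨ K.R b x) : K.Cover :=
  ⟨_, _, Or.inr (good_starB a), Or.inl (good_starR b), fun x => by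
    rcases h x with h | h | h | h
    · exact Or.inl (Or.inl h)
    · exact Or.inl (Or.inr h)
    · exact Or.inr (Or.inl h)
    · exact Or.inr (Or.inr h)⟩

/-- colours seen from `a` -/
theorem tri {a a' : V} (h : K.p a = a') (x : V) : x = a ∨ x = a' ∨ K.R a x ∨ K.B a x := by
  by_cases h1 : x = a
  · exact Or.inl h1
  by_cases h2 : x = a'
  · exact Or.inr (Or.inl h2)
  exact Or.inr (Or.inr (K.tot a x (Ne.symm h1) (by rw [h]; exact h2)))

theorem pinv {a a' : V} (h : K.p a = a') : K.p a' = a := by rw [← h, K.pp]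

/-- a common blue neighbour of `a` and its partner -/
theorem bb (hN : ¬ K.Cover) {a a' : V} (h : K.p a = a') : ∃ q, K.B a q ∧ K.B a' q := by
  by_contra h0
  push Not at h0
  apply hN
  apply cover_RR (a := a) (b := a')
  intro x
  rcases tri h x with h1 | h1 | h1 | h1
  · exact Or.inl h1
  · exact Or.inr (Or.inr (Or.inl h1))
  · exact Or.inr (Or.inl h1)
  · rcases tri (pinv h) x with h2 | h2 | h2 | h2
    · exact Or.inr (Or.inr (Or.inl h2))
    · exact Or.inl h2
    · exact Or.inr (Or.inr (Or.inr h2))
    · exact absurd h2 (h0 x h1)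

/-- a common red neighbour of `a` and its partner -/
theorem rr (hN : ¬ K.Cover) {a a' : V} (h : K.p a = a') : ∃ q, K.R a q ∧ K.R a' q := by
  by_contra h0
  push Not at h0
  apply hN
  apply cover_BB (a := a) (b := a')
  intro x
  rcases tri h x with h1 | h1 | h1 | h1
  · exact Or.inl h1
  · exact Or.inr (Or.inr (Or.inl h1))
  · rcases tri (pinv h) x with h2 | h2 | h2 | h2
    · exact Or.inr (Or.inr (Or.inl h2))
    · exact Or.inl h2
    · exact absurd h2 (h0 x h1)
    · exact Or.inr (Or.inr (Or.inr h2))
  · exact Or.inr (Or.inl h1)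

/-- every other element is blue to `u` or `w` -/
theorem far' {u v w z : V} (hv : K.p u = v) (hz : K.p w = z)
    (far : ∀ x, K.R u x → K.R w x → False) (x : V) :
    x = u ∨ x = v ∨ x = w ∨ x = z ∨ K.B u x ∨ K.B w x := by
  rcases tri hv x with h | h | h | h
  · exact Or.inl h
  · exact Or.inr (Or.inl h)
  · rcases tri hz x with h' | h' | h' | h'
    · exact Or.inr (Or.inr (Or.inl h'))
    · exact Or.inr (Or.inr (Or.inr (Or.inl h')))
    · exact (far x h h').elim
    · exact Or.inr (Or.inr (Or.inr (Or.inr (Or.inr h'))))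
  · exact Or.inr (Or.inr (Or.inr (Or.inr (Or.inl h))))

/-- Lemma A -/
theorem lemA (hN : ¬ K.Cover) {u v w z : V} (hv : K.p u = v) (hz : K.p w = z) (huw : K.B u w)
    (far : ∀ x, K.R u x → K.R w x → False) (hvw : K.R v w) (h : K.R v z ∨ K.B u z) : False := by
  obtain ⟨q, hq1, hq2⟩ := bb hN hv
  apply hN
  by_cases hs : ∃ s, K.B v s ∧ K.B w s
  · obtain ⟨s, hs1, hs2⟩ := hs
    -- every blue neighbour of `v` is blue to `u` or `w`
    have key : ∀ x, K.B v x → K.B u x ∨ K.B w x := by
      intro x hx
      rcases far' hv hz far x with e | e | e | e | e | e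
      · exact absurd (pinv hv).symm (fun e' => Bnp hx (by rw [e]; exact e'))
      · exact absurd e.symm (Bne hx)
      · rw [e] at hx
        exact (K.RB hvw hx).elim
      · rcases h with h | h
        · rw [e] at hx
          exact (K.RB h hx).elim
        · left
          rw [e]
          exact h
      · exact Or.inl e
      · exact Or.inr e
    refine ⟨_, fun x => x = v ∨ K.B v x ∨ x = u ∨ x = w, Or.inl (good_starR v), Or.inr ?_, ?_⟩
    · have mu : (fun x => x = v ∨ K.B v x ∨ x = u ∨ x = w) u := Or.inr (Or.inr (Or.inl rfl))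
      have mw : (fun x => x = v ∨ K.B v x ∨ x = u ∨ x = w) w := Or.inr (Or.inr (Or.inr rfl))
      have mv : (fun x => x = v ∨ K.B v x ∨ x = u ∨ x = w) v := Or.inl rfl
      have mq : (fun x => x = v ∨ K.B v x ∨ x = u ∨ x = w) q := Or.inr (Or.inl hq2)
      have ms : (fun x => x = v ∨ K.B v x ∨ x = u ∨ x = w) s := Or.inr (Or.inl hs1)
      have vu : Near K.B (fun x => x = v ∨ K.B v x ∨ x = u ∨ x = w) v u :=
        near_hub q mq (K.Bs hq2) (K.Bs hq1)
      have vw : Near K.B (fun x => x = v ∨ K.B v x ∨ x = u ∨ x = w) v w :=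
        near_hub s ms (K.Bs hs1) (K.Bs hs2)
      have ux : ∀ x, K.B v x → Near K.B (fun x => x = v ∨ K.B v x ∨ x = u ∨ x = w) u x := by
        intro x hx
        rcases key x hx with h1 | h1
        · exact near_adj h1
        · exact near_hub w mw (K.Bs huw) h1
      have wx : ∀ x, K.B v x → Near K.B (fun x => x = v ∨ K.B v x ∨ x = u ∨ x = w) w x := by
        intro x hx
        rcases key x hx with h1 | h1
        · exact near_hub u mu huw h1
        · exact near_adj h1
      rintro x (hx | hx | hx | hx) y (hy | hy | hy | hy)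
      · exact near_eq hx hy
      · exact near_l hx hy
      · rw [hx, hy]; exact vu
      · rw [hx, hy]; exact vw
      · exact near_symm K.Bs (near_l hy hx)
      · exact near_hub v mv hx hy
      · rw [hy]; exact near_symm K.Bs (ux x hx)
      · rw [hy]; exact near_symm K.Bs (wx x hx)
      · rw [hx, hy]; exact near_symm K.Bs vu
      · rw [hx]; exact ux y hy
      · exact near_eq hx hy
      · rw [hx, hy]; exact near_adj huw
      · rw [hx, hy]; exact near_symm K.Bs vw
      · rw [hx]; exact wx y hy
      · rw [hx, hy]; exact near_adj (K.Bs huw)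
      · exact near_eq hx hy
    · intro x
      rcases tri (pinv hv) x with e | e | e | e
      · exact Or.inl (Or.inl e)
      · exact Or.inr (Or.inr (Or.inr (Or.inl e)))
      · exact Or.inl (Or.inr e)
      · exact Or.inr (Or.inr (Or.inl e))
  · push Not at hs
    apply cover_BR (a := u) (b := v)
    intro x
    rcases tri hv x with e | e | e | e
    · exact Or.inl e
    · exact Or.inr (Or.inr (Or.inl e))
    · -- `x` red to `u`
      right; right; right
      rcases tri (pinv hv) x with e' | e' | e' | e'
      · exact absurd e' (fun e'' => Rnp e (by rw [hv]; exact e''))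
      · exact absurd e'.symm (Rne e)
      · exact e'
      · exfalso
        rcases tri hz x with f | f | f | f
        · rw [f] at e
          exact K.RB e huw
        · rcases h with h | h
          · rw [f] at e'
            exact K.RB h e'
          · rw [f] at e
            exact K.RB e h
        · exact far x e f
        · exact hs x e' f
    · exact Or.inr (Or.inl e)

end Col

end Pool.Agent.T6.H98.CP
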