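import Pool.Agent.T6.H98.CP.Main

/-!
MP_9fa5c3_co: end of the proof of the existence of the cover.
-/

namespace Pool.Agent.T6.H98.CP

variable {V : Type*} {K : Col V}

namespace Col

theorem Main.z1 (hN : ¬ K.Cover) {u v w z : V} (M : Main K u v w z) (s : V)
    (vs : K.B v s) (ws : K.B w s) (zs : K.B z s) : False := by
  have noT : ∀ t, K.B u t → K.B w t → K.B z t → False := M.noT hN
  have noT' : ∀ t, K.B u t → K.B w t → K.B v t → False :=
    fun t h1 h2 h3 => M.mirror.noT hN t h2 h1 h3
  have noA : ∀ x, K.B u x → K.B v x → K.B z x → False :=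
    fun x h1 h2 h3 => M.noAB hN x s h2 h1 h3 vs ws zs
  -- a blue element of type `(u v)`
  obtain ⟨q, uq, vq⟩ := bb hN M.hv
  have q4 : K.R w q ∧ K.R z q := by
    rcases M.cls q with e | e | e | e | ⟨e1, e2, e3, e4⟩
    · exact absurd e.symm (Bne uq)
    · exact absurd e.symm (Bne vq)
    · rw [e] at vq; exact (K.RB M.vw vq).elim
    · rw [e] at uq; exact (K.RB M.uz uq).elim
    · refine ⟨?_, ?_⟩
      · rcases e3 with h | h
        · exact h
        · exact (noT' q uq h vq).elim
      · rcases e4 with h | h
        · exact h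
        · exact (noA q uq vq h).elim
  obtain ⟨wq, zq⟩ := q4
  -- a red element of type `(u v)`
  obtain ⟨r, ur, vr⟩ := rr hN M.hv
  -- an element of type `D`
  obtain ⟨d, ud, wd⟩ := M.exD hN
  have d4 : K.R v d ∧ K.R z d := by
    rcases M.cls d with e | e | e | e | ⟨e1, e2, e3, e4⟩
    · exact absurd e.symm (Bne ud)
    · exact absurd (e.trans M.hv.symm) (Bnp ud)
    · exact absurd e.symm (Bne wd)
    · exact absurd (e.trans M.hz.symm) (Bnp wd)
    · refine ⟨?_, ?_⟩
      · rcases e2 with h | h
        · exact h
        · exact (noT' d ud wd h).elim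
      · rcases e4 with h | h
        · exact h
        · exact (noT d ud wd h).elim
  obtain ⟨vd, zd⟩ := d4
  obtain ⟨p0, up0, zp0⟩ := M.exP hN s vs ws zs
  have wz : K.R w v := K.Rs M.vw
  -- elements of type `P`
  have hP : ∀ y, K.B u y → K.B z y → K.R w y ∧ K.R v y := by
    intro y h1 h2
    rcases M.cls y with e | e | e | e | ⟨e1, e2, e3, e4⟩
    · exact absurd e.symm (Bne h1)
    · exact absurd (e.trans M.hv.symm) (Bnp h1)
    · exact absurd (e.trans (pinv M.hz).symm) (Bnp h2)
    · exact absurd e.symm (Bne h2)
    · refine ⟨?_, ?_⟩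
      · rcases e3 with h | h
        · exact h
        · exact (noT y h1 h h2).elim
      · rcases e2 with h | h
        · exact h
        · exact (noA y h1 h h2).elim
  -- the cover by two blue sets
  by_cases hcov : ∀ x,
      (fun x => x = u ∨ x = z ∨ (K.B u x ∧ (K.B z x ∨ ∃ y, K.B u y ∧ K.B z y ∧ K.B x y))) x ∨
      (fun x => x = w ∨ x = v ∨ (K.B w x ∧ (K.B v x ∨ ∃ y, K.B w y ∧ K.B v y ∧ K.B x y))) x
  · exact hN ⟨_, _, Or.inr (g4 K.Bs up0 zp0), Or.inr (g4 K.Bs ws vs), hcov⟩
  push Not at hcov
  obtain ⟨x, ⟨hxu, hxz, hx1⟩, hxw, hxv, hx2⟩ := hcov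
  obtain ⟨e1, e2, e3, e4⟩ : ((K.R u x ∨ K.B u x) ∧ (K.R v x ∨ K.B v x) ∧ (K.R w x ∨ K.B w x) ∧
      (K.R z x ∨ K.B z x)) := by
    rcases M.cls x with e | e | e | e | e
    · exact absurd e hxu
    · exact absurd e hxv
    · exact absurd e hxw
    · exact absurd e hxz
    · exact e
  -- adjacency of `x` with the elements of type `P`
  have xP : K.B u x → ∀ y, K.B u y → K.B z y → y ≠ K.p x → K.R x y := by
    intro h y h1 h2 h3
    obtain ⟨f1, f2⟩ := hx1 h
    have hne : x ≠ y := by
      intro e
      rw [← e] at h2
      exact f1 h2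
    rcases K.tot x y hne h3 with g | g
    · exact g
    · exact absurd g (f2 y h1 h2)
  -- adjacency of `x` with the elements of type `T`
  have xT : K.B w x → ∀ y, K.B w y → K.B v y → y ≠ K.p x → K.R x y := by
    intro h y h1 h2 h3
    obtain ⟨f1, f2⟩ := hx2 h
    have hne : x ≠ y := by
      intro e
      rw [← e] at h2
      exact f1 h2
    rcases K.tot x y hne h3 with g | g
    · exact g
    · exact absurd g (f2 y h1 h2)
  have key : K.B u x ∨ K.B w x := by
    rcases e1 with h | h
    · rcases e3 with h' | h'
      · exact (M.far x h h').elim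
      · exact Or.inr h'
    · exact Or.inl h
  -- the two unions which occur twice
  have uni1 : (K.B u x) → (∀ y, K.B u y → K.B z y → K.R x y) → ∀ y, (y = u ∨ K.R u y) ∨
      (y = w ∨ y = v ∨ y = z ∨ (K.R w y ∧ K.R z y) ∨ (K.R v y ∧ K.R z y) ∨
        (K.R w y ∧ K.R v y ∧ K.R x y)) := by
    intro _ hall y
    rcases M.cls y with e | e | e | e | ⟨f1, f2, f3, f4⟩
    · exact Or.inl (Or.inl e)
    · exact Or.inr (Or.inr (Or.inl e))
    · exact Or.inr (Or.inl e)
    · exact Or.inr (Or.inr (Or.inr (Or.inl e)))
    · rcases f1 with f1 | f1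
      · exact Or.inl (Or.inr f1)
      · rcases f4 with f4 | f4
        · rcases f3 with f3 | f3
          · exact Or.inr (Or.inr (Or.inr (Or.inr (Or.inl ⟨f3, f4⟩))))
          · rcases f2 with f2 | f2
            · exact Or.inr (Or.inr (Or.inr (Or.inr (Or.inr (Or.inl ⟨f2, f4⟩)))))
            · exact (noT' y f1 f3 f2).elim
        · obtain ⟨g1, g2⟩ := hP y f1 f4
          exact Or.inr (Or.inr (Or.inr (Or.inr (Or.inr (Or.inr ⟨g1, g2, hall y f1 f4⟩)))))
  have uni2 : (∀ y, K.B w y → K.B v y → K.R z y → K.R x y) → ∀ y,
      (y = u ∨ y = z ∨ y = v ∨ (K.R u y ∧ K.R v y) ∨ (K.R z y ∧ K.R v y) ∨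
        (K.R u y ∧ K.R z y ∧ K.R x y)) ∨
      (y = u ∨ y = w ∨ y = v ∨ y = z ∨ (K.B u y ∧ K.B z y) ∨ (K.B u y ∧ K.B v y) ∨
        (K.B w y ∧ K.B v y ∧ K.B z y)) := by
    intro hall y
    rcases M.cls y with e | e | e | e | ⟨f1, f2, f3, f4⟩
    · exact Or.inl (Or.inl e)
    · exact Or.inl (Or.inr (Or.inr (Or.inl e)))
    · exact Or.inr (Or.inr (Or.inl e))
    · exact Or.inl (Or.inr (Or.inl e))
    · rcases f1 with f1 | f1
      · rcases f2 with f2 | f2
        · exact Or.inl (Or.inr (Or.inr (Or.inr (Or.inl ⟨f1, f2⟩))))
        · have f3' : K.B w y := by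
            rcases f3 with f3 | f3
            · exact (M.far y f1 f3).elim
            · exact f3
          rcases f4 with f4 | f4
          · exact Or.inl (Or.inr (Or.inr (Or.inr (Or.inr (Or.inr ⟨f1, f4, hall y f3' f2 f4⟩)))))
          · exact Or.inr (Or.inr (Or.inr (Or.inr (Or.inr (Or.inr (Or.inr ⟨f3', f2, f4⟩))))))
      · rcases f4 with f4 | f4
        · rcases f2 with f2 | f2
          · exact Or.inl (Or.inr (Or.inr (Or.inr (Or.inr (Or.inl ⟨f4, f2⟩)))))
          · exact Or.inr (Or.inr (Or.inr (Or.inr (Or.inr (Or.inr (Or.inl ⟨f1, f2⟩))))))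
        · exact Or.inr (Or.inr (Or.inr (Or.inr (Or.inr (Or.inl ⟨f1, f4⟩)))))
  by_cases hu : K.B u x
  · have zx : K.R z x := by
      rcases e4 with h | h
      · exact h
      · exact absurd h (hx1 hu).1
    by_cases hpP : K.B u (K.p x) ∧ K.B z (K.p x)
    · by_cases hw : K.B w x
      · -- case III b
        have vx : K.R v x := by
          rcases e2 with h | h
          · exact h
          · exact absurd h (hx2 hw).1
        have hall : ∀ y, K.B w y → K.B v y → K.R z y → K.R x y := by
          intro y h1 h2 h3
          apply xT hw y h1 h2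
          intro e
          rw [← e] at hpP
          exact K.RB h3 hpP.2
        exact hN ⟨_, _, Or.inl (g1b K.Rs M.uz ur vr zd vd zx vx _ (fun x => Iff.rfl)),
          Or.inr (g2 K.Bs M.uw M.vz uq vq up0 zp0 ws vs zs _ (fun x => Iff.rfl)), uni2 hall⟩
      · -- case I b
        have wx : K.R w x := by
          rcases e3 with h | h
          · exact h
          · exact absurd h hw
        obtain ⟨p, hp⟩ : ∃ p, p = K.p x := ⟨_, rfl⟩
        rw [← hp] at hpP
        obtain ⟨up, zp⟩ := hpP
        obtain ⟨wp, vp⟩ := hP p up zp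
        have hpx : K.p p = x := by rw [hp, K.pp]
        -- the elements of type `P` other than `p`
        have hP' : ∀ y, K.B u y → K.B z y → y ≠ p → K.R x y := fun y h1 h2 h3 =>
          xP hu y h1 h2 (by rw [← hp]; exact h3)
        have hpy : ∀ y, y ≠ p → y ≠ x → K.R p y ∨ K.B p y := fun y h1 h2 =>
          K.tot p y (Ne.symm h1) (by rw [hpx]; exact h2)
        have gH := g5 (C := K.B) K.Bs M.uw up zp ws zs _ (fun x => Iff.rfl)
        by_cases ht : ∃ t, K.R z t ∧ K.R p t ∧ K.B w t ∧ K.B v t
        · obtain ⟨t, zt, pt, -, -⟩ := ht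
          refine hN ⟨_, _, Or.inl (g3 K.Rs wz wq zq vd zd wx zx wp vp zt pt _
            (fun x => Iff.rfl)), Or.inr gH, fun y => ?_⟩
          rcases M.cls y with e | e | e | e | ⟨f1, f2, f3, f4⟩
          · exact Or.inr (Or.inl e)
          · exact Or.inl (Or.inr (Or.inl e))
          · exact Or.inl (Or.inl e)
          · exact Or.inl (Or.inr (Or.inr (Or.inl e)))
          · rcases f4 with f4 | f4
            · rcases f3 with f3 | f3
              · exact Or.inl (Or.inr (Or.inr (Or.inr (Or.inl ⟨f3, f4⟩))))
              · rcases f2 with f2 | f2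
                · exact Or.inl (Or.inr (Or.inr (Or.inr (Or.inr (Or.inl ⟨f2, f4⟩)))))
                · -- type `T` (or impossible)
                  have hyp : y ≠ p := by
                    intro e
                    rw [e] at f4
                    exact K.RB f4 zp
                  have hyx : y ≠ x := by
                    intro e
                    rw [e] at f3
                    exact hw f3
                  rcases hpy y hyp hyx with g | g
                  · exact Or.inl (Or.inr (Or.inr (Or.inr (Or.inr (Or.inr (Or.inr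
                      (Or.inl ⟨f4, g⟩)))))))
                  · exact Or.inr (Or.inr (Or.inr (Or.inr (Or.inr (Or.inr (Or.inr ⟨f3, g⟩))))))
            · rcases f3 with f3 | f3
              · rcases f1 with f1 | f1
                · exact (M.far y f1 f3).elim
                · -- type `P`
                  by_cases hyp : y = p
                  · exact Or.inr (Or.inr (Or.inr (Or.inr (Or.inl hyp))))
                  · have hyx : y ≠ x := by
                      intro e
                      rw [e] at f4
                      exact K.RB zx f4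
                    obtain ⟨g1, g2⟩ := hP y f1 f4
                    rcases hpy y hyp hyx with g | g
                    · exact Or.inl (Or.inr (Or.inr (Or.inr (Or.inr (Or.inr
                        (Or.inl ⟨g1, g2, hP' y f1 f4 hyp, g⟩))))))
                    · exact Or.inr (Or.inr (Or.inr (Or.inr (Or.inr (Or.inr
                        (Or.inl ⟨f1, f4, g⟩))))))
              · exact Or.inr (Or.inr (Or.inr (Or.inr (Or.inr (Or.inl ⟨f3, f4⟩)))))
        · push Not at ht
          refine hN ⟨_, _, Or.inl (g1a K.Rs wz wq zq vd zd wx zx _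
            (fun x => Iff.rfl)), Or.inr gH, fun y => ?_⟩
          rcases M.cls y with e | e | e | e | ⟨f1, f2, f3, f4⟩
          · exact Or.inr (Or.inl e)
          · exact Or.inl (Or.inr (Or.inl e))
          · exact Or.inl (Or.inl e)
          · exact Or.inl (Or.inr (Or.inr (Or.inl e)))
          · rcases f4 with f4 | f4
            · rcases f3 with f3 | f3
              · exact Or.inl (Or.inr (Or.inr (Or.inr (Or.inl ⟨f3, f4⟩))))
              · rcases f2 with f2 | f2
                · exact Or.inl (Or.inr (Or.inr (Or.inr (Or.inr (Or.inl ⟨f2, f4⟩)))))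
                · have hyp : y ≠ p := by
                    intro e
                    rw [e] at f4
                    exact K.RB f4 zp
                  have hyx : y ≠ x := by
                    intro e
                    rw [e] at f3
                    exact hw f3
                  rcases hpy y hyp hyx with g | g
                  · exact absurd f2 (ht y f4 g f3)
                  · exact Or.inr (Or.inr (Or.inr (Or.inr (Or.inr (Or.inr (Or.inr ⟨f3, g⟩))))))
            · rcases f3 with f3 | f3
              · rcases f1 with f1 | f1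
                · exact (M.far y f1 f3).elim
                · by_cases hyp : y = p
                  · exact Or.inr (Or.inr (Or.inr (Or.inr (Or.inl hyp))))
                  · obtain ⟨g1, g2⟩ := hP y f1 f4
                    exact Or.inl (Or.inr (Or.inr (Or.inr (Or.inr (Or.inr
                        ⟨g1, g2, hP' y f1 f4 hyp⟩)))))
              · exact Or.inr (Or.inr (Or.inr (Or.inr (Or.inr (Or.inl ⟨f3, f4⟩)))))
    · -- cases I a and III a
      have hall : ∀ y, K.B u y → K.B z y → K.R x y := by
        intro y h1 h2
        apply xP hu y h1 h2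
        intro e
        rw [← e] at hpP
        exact hpP ⟨h1, h2⟩
      rcases e3 with wx | wx
      · exact hN ⟨_, _, Or.inl (good_starR u),
          Or.inl (g1a K.Rs wz wq zq vd zd wx zx _ (fun x => Iff.rfl)), uni1 hu hall⟩
      · have vx : K.R v x := by
          rcases e2 with h | h
          · exact h
          · exact absurd h (hx2 wx).1
        exact hN ⟨_, _, Or.inl (good_starR u),
          Or.inl (g1b K.Rs wz wq zq vd zd vx zx _ (fun x => Iff.rfl)), uni1 hu hall⟩
  · -- case II
    have hw : K.B w x := key.resolve_left hu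
    have ux : K.R u x := by
      rcases e1 with h | h
      · exact h
      · exact absurd h hu
    have vx : K.R v x := by
      rcases e2 with h | h
      · exact h
      · exact absurd h (hx2 hw).1
    by_cases hpT : K.B w (K.p x) ∧ K.B v (K.p x) ∧ K.R z (K.p x)
    · obtain ⟨t, hp⟩ : ∃ t, t = K.p x := ⟨_, rfl⟩
      rw [← hp] at hpT
      obtain ⟨wt, vt, zt⟩ := hpT
      have htx : K.p t = x := by rw [hp, K.pp]
      have ut : K.R u t := by
        rcases M.cls t with e | e | e | e | ⟨f1, f2, f3, f4⟩
        · rw [e] at zt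
          rw [e] at wt
          rw [e] at vt
          exact absurd (pinv M.hv).symm (Bnp vt)
        · exact absurd e.symm (Bne vt)
        · exact absurd e.symm (Bne wt)
        · exact absurd e.symm (Rne zt)
        · rcases f1 with f1 | f1
          · exact f1
          · exact (noT' t f1 wt vt).elim
      have hT' : ∀ y, K.B w y → K.B v y → y ≠ t → K.R x y := fun y h1 h2 h3 =>
          xT hw y h1 h2 (by rw [← hp]; exact h3)
      have hty : ∀ y, y ≠ t → y ≠ x → K.R t y ∨ K.B t y := fun y h1 h2 =>
          K.tot t y (Ne.symm h1) (by rw [htx]; exact h2)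
      have htP : ∀ y, K.B u y → K.B z y → K.R t y ∨ K.B t y := by
        intro y h1 h2
        apply hty y
        · intro e
          rw [e] at h2
          exact K.RB zt h2
        · intro e
          rw [e] at h1
          exact hu h1
      by_cases hr : ∃ y, K.B u y ∧ K.B z y ∧ K.R t y
      · obtain ⟨r1, ur1, zr1, tr1⟩ := hr
        obtain ⟨wr1, vr1⟩ := hP r1 ur1 zr1
        have gZ := g3 (C := K.R) K.Rs M.uz ur vr zd vd ux vx ut zt vr1 tr1 _ (fun x => Iff.rfl)
        by_cases hb : ∃ y, K.B u y ∧ K.B z y ∧ K.B t y
        · obtain ⟨b, ub, zb, tb⟩ := hb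
          refine hN ⟨_, _, Or.inl gZ, Or.inr (g6 K.Bs M.uw M.vz wt vt ws vs zs uq vq ub zb tb _
            (fun x => Iff.rfl)), fun y => ?_⟩
          rcases M.cls y with e | e | e | e | ⟨f1, f2, f3, f4⟩
          · exact Or.inl (Or.inl e)
          · exact Or.inl (Or.inr (Or.inr (Or.inl e)))
          · exact Or.inr (Or.inl e)
          · exact Or.inl (Or.inr (Or.inl e))
          · rcases f1 with f1 | f1
            · rcases f2 with f2 | f2
              · exact Or.inl (Or.inr (Or.inr (Or.inr (Or.inl ⟨f1, f2⟩))))
              · have f3' : K.B w y := by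
                  rcases f3 with f3 | f3
                  · exact (M.far y f1 f3).elim
                  · exact f3
                rcases f4 with f4 | f4
                · by_cases hyt : y = t
                  · exact Or.inr (Or.inr (Or.inr (Or.inr (Or.inr (Or.inl hyt)))))
                  · have hyx : y ≠ x := by
                      intro e
                      rw [e] at f2
                      exact K.RB vx f2
                    rcases hty y hyt hyx with g | g
                    · exact Or.inl (Or.inr (Or.inr (Or.inr (Or.inr (Or.inr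
                        (Or.inl ⟨f1, f4, hT' y f3' f2 hyt, g⟩))))))
                    · exact Or.inr (Or.inr (Or.inr (Or.inr (Or.inr (Or.inr (Or.inr (Or.inr
                        (Or.inl ⟨f3', f2, g⟩))))))))
                · exact Or.inr (Or.inr (Or.inr (Or.inr (Or.inr (Or.inr (Or.inr
                    (Or.inl ⟨f3', f2, f4⟩)))))))
            · rcases f4 with f4 | f4
              · rcases f2 with f2 | f2
                · exact Or.inl (Or.inr (Or.inr (Or.inr (Or.inr (Or.inl ⟨f4, f2⟩)))))
                · exact Or.inr (Or.inr (Or.inr (Or.inr (Or.inr (Or.inr (Or.inl ⟨f1, f2⟩))))))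
              · obtain ⟨g1, g2⟩ := hP y f1 f4
                rcases htP y f1 f4 with g | g
                · exact Or.inl (Or.inr (Or.inr (Or.inr (Or.inr (Or.inr (Or.inr
                    (Or.inl ⟨g2, g⟩)))))))
                · exact Or.inr (Or.inr (Or.inr (Or.inr (Or.inr (Or.inr (Or.inr (Or.inr
                    (Or.inr ⟨f1, f4, g⟩))))))))
        · push Not at hb
          refine hN ⟨_, _, Or.inl gZ, Or.inr (g7 K.Bs M.uw uq vq ws vs _
            (fun x => Iff.rfl)), fun y => ?_⟩
          rcases M.cls y with e | e | e | e | ⟨f1, f2, f3, f4⟩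
          · exact Or.inl (Or.inl e)
          · exact Or.inl (Or.inr (Or.inr (Or.inl e)))
          · exact Or.inr (Or.inr (Or.inl e))
          · exact Or.inl (Or.inr (Or.inl e))
          · rcases f1 with f1 | f1
            · rcases f2 with f2 | f2
              · exact Or.inl (Or.inr (Or.inr (Or.inr (Or.inl ⟨f1, f2⟩))))
              · have f3' : K.B w y := by
                  rcases f3 with f3 | f3
                  · exact (M.far y f1 f3).elim
                  · exact f3
                exact Or.inr (Or.inr (Or.inr (Or.inr (Or.inr ⟨f3', f2⟩))))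
            · rcases f4 with f4 | f4
              · rcases f2 with f2 | f2
                · exact Or.inl (Or.inr (Or.inr (Or.inr (Or.inr (Or.inl ⟨f4, f2⟩)))))
                · exact Or.inr (Or.inr (Or.inr (Or.inr (Or.inl ⟨f1, f2⟩))))
              · obtain ⟨g1, g2⟩ := hP y f1 f4
                rcases htP y f1 f4 with g | g
                · exact Or.inl (Or.inr (Or.inr (Or.inr (Or.inr (Or.inr (Or.inr
                    (Or.inl ⟨g2, g⟩)))))))
                · exact absurd g (hb y f1 f4)
      · push Not at hr
        have tp0 : K.B t p0 := by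
          rcases htP p0 up0 zp0 with g | g
          · exact absurd g (hr p0 up0 zp0)
          · exact g
        refine hN ⟨_, _, Or.inl (g1a K.Rs M.uz ur vr zd vd ux vx _ (fun x => Iff.rfl)),
          Or.inr (g6 K.Bs M.uw M.vz wt vt ws vs zs uq vq up0 zp0 tp0 _
            (fun x => Iff.rfl)), fun y => ?_⟩
        rcases M.cls y with e | e | e | e | ⟨f1, f2, f3, f4⟩
        · exact Or.inl (Or.inl e)
        · exact Or.inl (Or.inr (Or.inr (Or.inl e)))
        · exact Or.inr (Or.inl e)
        · exact Or.inl (Or.inr (Or.inl e))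
        · rcases f1 with f1 | f1
          · rcases f2 with f2 | f2
            · exact Or.inl (Or.inr (Or.inr (Or.inr (Or.inl ⟨f1, f2⟩))))
            · have f3' : K.B w y := by
                rcases f3 with f3 | f3
                · exact (M.far y f1 f3).elim
                · exact f3
              rcases f4 with f4 | f4
              · by_cases hyt : y = t
                · exact Or.inr (Or.inr (Or.inr (Or.inr (Or.inr (Or.inl hyt)))))
                · exact Or.inl (Or.inr (Or.inr (Or.inr (Or.inr (Or.inr
                    ⟨f1, f4, hT' y f3' f2 hyt⟩)))))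
              · exact Or.inr (Or.inr (Or.inr (Or.inr (Or.inr (Or.inr (Or.inr
                  (Or.inl ⟨f3', f2, f4⟩)))))))
          · rcases f4 with f4 | f4
            · rcases f2 with f2 | f2
              · exact Or.inl (Or.inr (Or.inr (Or.inr (Or.inr (Or.inl ⟨f4, f2⟩)))))
              · exact Or.inr (Or.inr (Or.inr (Or.inr (Or.inr (Or.inr (Or.inl ⟨f1, f2⟩))))))
            · rcases htP y f1 f4 with g | g
              · exact absurd g (hr y f1 f4)
              · exact Or.inr (Or.inr (Or.inr (Or.inr (Or.inr (Or.inr (Or.inr (Or.inr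
                  (Or.inr ⟨f1, f4, g⟩))))))))
    · have hall : ∀ y, K.B w y → K.B v y → K.R z y → K.R x y := by
        intro y h1 h2 h3
        apply xT hw y h1 h2
        intro e
        rw [← e] at hpT
        exact hpT ⟨h1, h2, h3⟩
      exact hN ⟨_, _, Or.inl (g1a K.Rs M.uz ur vr zd vd ux vx _ (fun x => Iff.rfl)),
          Or.inr (g2 K.Bs M.uw M.vz uq vq up0 zp0 ws vs zs _ (fun x => Iff.rfl)), uni2 hall⟩

theorem Main.false (hN : ¬ K.Cover) {u v w z : V} (M : Main K u v w z) : False := by
  obtain ⟨s, vs, zs⟩ := M.exS hN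
  rcases M.bv vs with e | e | e
  · exact absurd e.symm (Bne zs)
  · exact M.mirror.z1 hN s zs e vs
  · exact M.z1 hN s vs e zs

/-- every 2-colouring of a complete graph minus a perfect matching has a cover -/
theorem cover (K : Col V) : K.Cover := by
  by_contra hN
  have h1 : ¬ Good K.R (fun _ => True) := fun h =>
    hN ⟨_, _, Or.inl h, Or.inl h, fun _ => Or.inl trivial⟩
  unfold Good Near at h1
  push Not at h1
  obtain ⟨u, -, w, -, huw, huw', far0⟩ := h1
  have far : ∀ x, K.R u x → K.R w x → False := fun x h2 h3 =>
    far0 x trivial (K.Rs h2) (K.Rs h3)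
  obtain ⟨v, hv⟩ : ∃ v, K.p u = v := ⟨_, rfl⟩
  obtain ⟨z, hz⟩ : ∃ z, K.p w = z := ⟨_, rfl⟩
  by_cases hp : w = v
  · obtain ⟨q, h2, h3⟩ := rr hN hv
    exact far q h2 (by rw [hp]; exact h3)
  have buw : K.B u w := (K.tot u w huw (by rw [hv]; exact hp)).resolve_left huw'
  have hv' := pinv hv
  have hz' := pinv hz
  have hvw : K.R v w ∨ K.B v w := K.tot v w (Ne.symm hp) (by rw [hv']; exact huw.symm)
  have hzu' : z ≠ u := by
    intro e
    rw [e] at hz'
    rw [hz'] at hv
    exact hp hv
  have hzu : K.R z u ∨ K.B z u := K.tot z u hzu' (by rw [hz']; exact huw)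
  have hzv : z ≠ v := by
    intro e
    rw [e] at hz'
    rw [hz'] at hv'
    exact huw hv'.symm
  have hvz : K.R v z ∨ K.B v z := K.tot v z hzv.symm (by rw [hv']; exact hzu')
  rcases hvw with hvw | hvw
  · rcases hvz with hvz | hvz
    · exact lemA hN hv hz buw far hvw (Or.inl hvz)
    · rcases hzu with hzu | hzu
      · exact Main.false hN ⟨hv, hz, buw, hvz, hvw, K.Rs hzu, far⟩
      · exact lemA hN hv hz buw far hvw (Or.inr (K.Bs hzu))
  · rcases hzu with hzu | hzu
    · exact lemA hN hz hv (K.Bs buw) (fun x h2 h3 => far x h3 h2) hzu (Or.inr (K.Bs hvw))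
    · apply hN
      apply cover_BB (a := u) (b := w)
      intro x
      rcases far' hv hz far x with e | e | e | e | e | e
      · exact Or.inl e
      · right; right; right
        rw [e]
        exact K.Bs hvw
      · exact Or.inr (Or.inr (Or.inl e))
      · right; left
        rw [e]
        exact K.Bs hzu
      · exact Or.inr (Or.inl e)
      · exact Or.inr (Or.inr (Or.inr e))

end Col

end Pool.Agent.T6.H98.CP
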