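import Pool.Agent.T6.H98.CP.Sets

/-!
MP_9fa5c3_co: the proof of the existence of the cover.
-/

namespace Pool.Agent.T6.H98.CP

variable {V : Type*} {K : Col V}

namespace Col

/-- the main configuration -/
structure Main (K : Col V) (u v w z : V) : Prop where
  hv : K.p u = v
  hz : K.p w = z
  uw : K.B u w
  vz : K.B v z
  vw : K.R v w
  uz : K.R u z
  far : ∀ x, K.R u x → K.R w x → False

theorem Main.mirror {u v w z : V} (M : Main K u v w z) : Main K w z u v where
  hv := M.hz
  hz := M.hv
  uw := K.Bs M.uw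
  vz := K.Bs M.vz
  vw := K.Rs M.uz
  uz := K.Rs M.vw
  far := fun x h1 h2 => M.far x h2 h1

/-- the blue neighbours of `v` -/
theorem Main.bv {u v w z : V} (M : Main K u v w z) {x : V} (hx : K.B v x) :
    x = z ∨ K.B u x ∨ K.B w x := by
  rcases far' M.hv M.hz M.far x with e | e | e | e | e | e
  · exact absurd (e.trans (pinv M.hv).symm) (Bnp hx)
  · exact absurd e.symm (Bne hx)
  · rw [e] at hx
    exact (K.RB M.vw hx).elim
  · exact Or.inl e
  · exact Or.inr (Or.inl e)
  · exact Or.inr (Or.inr e)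

theorem Main.noT (hN : ¬ K.Cover) {u v w z : V} (M : Main K u v w z) (t : V) (ut : K.B u t)
    (wt : K.B w t) (zt : K.B z t) : False := by
  obtain ⟨q, uq, vq⟩ := bb hN M.hv
  apply hN
  by_cases hs : ∃ s, K.B v s ∧ K.B w s
  · obtain ⟨s, vs, ws⟩ := hs
    refine ⟨_, _, Or.inl (good_starR v),
      Or.inr (g8 K.Bs M.uw M.vz ut wt zt vq uq vs ws _ (fun x => Iff.rfl)), fun x => ?_⟩
    rcases tri (pinv M.hv) x with e | e | e | e
    · exact Or.inl (Or.inl e)
    · exact Or.inr (Or.inl e)
    · exact Or.inl (Or.inr e)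
    · rcases M.bv e with f | f | f
      · exact Or.inr (Or.inr (Or.inr (Or.inr (Or.inl f))))
      · exact Or.inr (Or.inr (Or.inr (Or.inr (Or.inr (Or.inr (Or.inl ⟨e, f⟩))))))
      · exact Or.inr (Or.inr (Or.inr (Or.inr (Or.inr (Or.inr (Or.inr ⟨e, f⟩))))))
  · push Not at hs
    refine ⟨_, _, Or.inl (good_starR v),
      Or.inr (g9 K.Bs ut M.vz zt vq uq _ (fun x => Iff.rfl)), fun x => ?_⟩
    rcases tri (pinv M.hv) x with e | e | e | e
    · exact Or.inl (Or.inl e)
    · exact Or.inr (Or.inl e)
    · exact Or.inl (Or.inr e)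
    · rcases M.bv e with f | f | f
      · exact Or.inr (Or.inr (Or.inr (Or.inr (Or.inl f))))
      · exact Or.inr (Or.inr (Or.inr (Or.inr (Or.inr ⟨e, f⟩))))
      · exact absurd f (hs x e)

theorem Main.cls {u v w z : V} (M : Main K u v w z) (x : V) : x = u ∨ x = v ∨ x = w ∨ x = z ∨
    ((K.R u x ∨ K.B u x) ∧ (K.R v x ∨ K.B v x) ∧ (K.R w x ∨ K.B w x) ∧ (K.R z x ∨ K.B z x)) := by
  rcases tri M.hv x with e | e | e | e
  · exact Or.inl e
  · exact Or.inr (Or.inl e)
  all_goals
    rcases tri M.hz x with f | f | f | f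
    · exact Or.inr (Or.inr (Or.inl f))
    · exact Or.inr (Or.inr (Or.inr (Or.inl f)))
    all_goals
      refine Or.inr (Or.inr (Or.inr (Or.inr ⟨?_, ?_, ?_, ?_⟩)))
      · first | exact Or.inl e | exact Or.inr e
      · rcases tri (pinv M.hv) x with g | g | g | g
        · first
            | exact absurd (g.trans M.hv.symm) (Rnp e)
            | exact absurd (g.trans M.hv.symm) (Bnp e)
        · first
            | exact absurd g.symm (Rne e)
            | exact absurd g.symm (Bne e)
        · exact Or.inl g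
        · exact Or.inr g
      · first | exact Or.inl f | exact Or.inr f
      · rcases tri (pinv M.hz) x with g | g | g | g
        · first
            | exact absurd (g.trans M.hz.symm) (Rnp f)
            | exact absurd (g.trans M.hz.symm) (Bnp f)
        · first
            | exact absurd g.symm (Rne f)
            | exact absurd g.symm (Bne f)
        · exact Or.inl g
        · exact Or.inr g

theorem Main.exD (hN : ¬ K.Cover) {u v w z : V} (M : Main K u v w z) :
    ∃ d, K.B u d ∧ K.B w d := by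
  by_contra h0
  push Not at h0
  apply hN
  apply cover_RR (a := u) (b := w)
  intro x
  rcases M.cls x with e | e | e | e | ⟨e1, e2, e3, e4⟩
  · exact Or.inl e
  · right; right; right
    rw [e]
    exact K.Rs M.vw
  · exact Or.inr (Or.inr (Or.inl e))
  · right; left
    rw [e]
    exact M.uz
  · rcases e1 with e1 | e1
    · exact Or.inr (Or.inl e1)
    · rcases e3 with e3 | e3
      · exact Or.inr (Or.inr (Or.inr e3))
      · exact absurd e3 (h0 x e1)

theorem Main.exS (hN : ¬ K.Cover) {u v w z : V} (M : Main K u v w z) :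
    ∃ s, K.B v s ∧ K.B z s := by
  by_contra h0
  push Not at h0
  apply hN
  apply cover_RR (a := v) (b := z)
  intro x
  rcases M.cls x with e | e | e | e | ⟨e1, e2, e3, e4⟩
  · right; right; right
    rw [e]
    exact K.Rs M.uz
  · exact Or.inl e
  · right; left
    rw [e]
    exact M.vw
  · exact Or.inr (Or.inr (Or.inl e))
  · rcases e2 with e2 | e2
    · exact Or.inr (Or.inl e2)
    · rcases e4 with e4 | e4
      · exact Or.inr (Or.inr (Or.inr e4))
      · exact absurd e4 (h0 x e2)

theorem Main.noAB (hN : ¬ K.Cover) {u v w z : V} (M : Main K u v w z) (a b : V)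
    (va : K.B v a) (ua : K.B u a) (za : K.B z a) (vb : K.B v b) (wb : K.B w b) (zb : K.B z b) :
    False := by
  apply hN
  refine ⟨_, _, Or.inl (good_starR v),
    Or.inr (g10 K.Bs M.uw M.vz va ua za vb wb zb _ (fun x => Iff.rfl)), fun x => ?_⟩
  rcases tri (pinv M.hv) x with e | e | e | e
  · exact Or.inl (Or.inl e)
  · exact Or.inr (Or.inl e)
  · exact Or.inl (Or.inr e)
  · rcases M.bv e with f | f | f
    · exact Or.inr (Or.inr (Or.inr (Or.inr (Or.inl f))))
    · exact Or.inr (Or.inr (Or.inr (Or.inr (Or.inr (Or.inl ⟨e, f⟩)))))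
    · exact Or.inr (Or.inr (Or.inr (Or.inr (Or.inr (Or.inr ⟨e, f⟩)))))

/-- there is an element of type `P` -/
theorem Main.exP (hN : ¬ K.Cover) {u v w z : V} (M : Main K u v w z) (s : V)
    (vs : K.B v s) (ws : K.B w s) (zs : K.B z s) :
    ∃ p, K.B u p ∧ K.B z p := by
  by_contra h0
  push Not at h0
  apply hN
  refine ⟨_, _, Or.inl (good_starR z),
    Or.inr (g11 K.Bs M.vz zs ws vs _ (fun x => Iff.rfl)), fun x => ?_⟩
  rcases tri (pinv M.hz) x with e | e | e | e
  · exact Or.inl (Or.inl e)
  · exact Or.inr (Or.inl e)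
  · exact Or.inl (Or.inr e)
  · rcases M.mirror.bv e with f | f | f
    · exact Or.inr (Or.inr (Or.inr (Or.inl f)))
    · exact Or.inr (Or.inr (Or.inr (Or.inr ⟨e, f⟩)))
    · exact absurd e (h0 x f)

end Col

end Pool.Agent.T6.H98.CP
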