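import Pool.Agent.T6.H98.CP.Base

/-!
MP_9fa5c3_co: the sets of diameter at most 2 which are used in the covers. In each lemma the set
`S` consists of some named elements and of the elements which are adjacent (in the colour `C`) to
certain named elements; two elements of `S` are adjacent or have a common neighbour among the
named elements.
-/

namespace Pool.Agent.T6.H98.CP

variable {V : Type*} {C : V → V → Prop}

/-- types `a`, `b`, `c`, `(a c)`, `(b c)`, `(a b e)`; `e` of type `(a c)` -/
theorem g1a (Cs : ∀ {x y}, C x y → C y x) {a b c q d e : V}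
    (hab : C a b) (haq : C a q) (hcq : C c q) (hbd : C b d) (hcd : C c d) (hae : C a e) (hce : C c e)
    (S : V → Prop)
    (hS : ∀ x, S x ↔ x = a ∨ x = b ∨ x = c ∨ (C a x ∧ C c x) ∨ (C b x ∧ C c x) ∨ (C a x ∧ C b x ∧ C e x)) :
    Good C S := by
  have ma : S a := (hS _).2 (Or.inl rfl)
  have mb : S b := (hS _).2 (Or.inr (Or.inl rfl))
  have mc : S c := (hS _).2 (Or.inr (Or.inr (Or.inl rfl)))
  have mq : S q := (hS _).2 (Or.inr (Or.inr (Or.inr (Or.inl ⟨haq, hcq⟩))))
  have md : S d := (hS _).2 (Or.inr (Or.inr (Or.inr (Or.inr (Or.inl ⟨hbd, hcd⟩)))))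
  have me : S e := (hS _).2 (Or.inr (Or.inr (Or.inr (Or.inl ⟨hae, hce⟩))))
  intro x hx y hy
  have hx := (hS x).1 hx
  have hy := (hS y).1 hy
  clear hS
  rcases hx with hx | hx | hx | ⟨hx1, hx2⟩ | ⟨hx1, hx2⟩ | ⟨hx1, hx2, hx3⟩ <;>
  (try (have ex := hx.symm; clear hx; subst ex)) <;>
  rcases hy with hy | hy | hy | ⟨hy1, hy2⟩ | ⟨hy1, hy2⟩ | ⟨hy1, hy2, hy3⟩ <;>
  (try (have ey := hy.symm; clear hy; subst ey)) <;>
  first
    | exact near_refl _
    | assumption
    | exact near_adj (by assumption)
    | exact near_adj (Cs (by assumption))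
    | exact near_hub a ma (by first | assumption | exact Cs (by assumption))
        (by first | assumption | exact Cs (by assumption))
    | exact near_hub b mb (by first | assumption | exact Cs (by assumption))
        (by first | assumption | exact Cs (by assumption))
    | exact near_hub c mc (by first | assumption | exact Cs (by assumption))
        (by first | assumption | exact Cs (by assumption))
    | exact near_hub q mq (by first | assumption | exact Cs (by assumption))
        (by first | assumption | exact Cs (by assumption))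
    | exact near_hub d md (by first | assumption | exact Cs (by assumption))
        (by first | assumption | exact Cs (by assumption))
    | exact near_hub e me (by first | assumption | exact Cs (by assumption))
        (by first | assumption | exact Cs (by assumption))

/-- types `a`, `b`, `c`, `(a c)`, `(b c)`, `(a b e)`; `e` of type `(b c)` -/
theorem g1b (Cs : ∀ {x y}, C x y → C y x) {a b c q d e : V}
    (hab : C a b) (haq : C a q) (hcq : C c q) (hbd : C b d) (hcd : C c d) (hbe : C b e) (hce : C c e)
    (S : V → Prop)
    (hS : ∀ x, S x ↔ x = a ∨ x = b ∨ x = c ∨ (C a x ∧ C c x) ∨ (C b x ∧ C c x) ∨ (C a x ∧ C b x ∧ C e x)) :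
    Good C S := by
  have ma : S a := (hS _).2 (Or.inl rfl)
  have mb : S b := (hS _).2 (Or.inr (Or.inl rfl))
  have mc : S c := (hS _).2 (Or.inr (Or.inr (Or.inl rfl)))
  have mq : S q := (hS _).2 (Or.inr (Or.inr (Or.inr (Or.inl ⟨haq, hcq⟩))))
  have md : S d := (hS _).2 (Or.inr (Or.inr (Or.inr (Or.inr (Or.inl ⟨hbd, hcd⟩)))))
  have me : S e := (hS _).2 (Or.inr (Or.inr (Or.inr (Or.inr (Or.inl ⟨hbe, hce⟩)))))
  intro x hx y hy
  have hx := (hS x).1 hx
  have hy := (hS y).1 hy
  clear hS
  rcases hx with hx | hx | hx | ⟨hx1, hx2⟩ | ⟨hx1, hx2⟩ | ⟨hx1, hx2, hx3⟩ <;>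
  (try (have ex := hx.symm; clear hx; subst ex)) <;>
  rcases hy with hy | hy | hy | ⟨hy1, hy2⟩ | ⟨hy1, hy2⟩ | ⟨hy1, hy2, hy3⟩ <;>
  (try (have ey := hy.symm; clear hy; subst ey)) <;>
  first
    | exact near_refl _
    | assumption
    | exact near_adj (by assumption)
    | exact near_adj (Cs (by assumption))
    | exact near_hub a ma (by first | assumption | exact Cs (by assumption))
        (by first | assumption | exact Cs (by assumption))
    | exact near_hub b mb (by first | assumption | exact Cs (by assumption))
        (by first | assumption | exact Cs (by assumption))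
    | exact near_hub c mc (by first | assumption | exact Cs (by assumption))
        (by first | assumption | exact Cs (by assumption))
    | exact near_hub q mq (by first | assumption | exact Cs (by assumption))
        (by first | assumption | exact Cs (by assumption))
    | exact near_hub d md (by first | assumption | exact Cs (by assumption))
        (by first | assumption | exact Cs (by assumption))
    | exact near_hub e me (by first | assumption | exact Cs (by assumption))
        (by first | assumption | exact Cs (by assumption))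

/-- types `a`, `b`, `c`, `(a c)`, `(b c)`, `(a b e p)`, `(c p)`, `p`; `e` of type `(a c)` -/
theorem g3 (Cs : ∀ {x y}, C x y → C y x) {a b c q d e p t : V}
    (hab : C a b) (haq : C a q) (hcq : C c q) (hbd : C b d) (hcd : C c d) (hae : C a e) (hce : C c e) (hap : C a p) (hbp : C b p) (hct : C c t) (hpt : C p t)
    (S : V → Prop)
    (hS : ∀ x, S x ↔ x = a ∨ x = b ∨ x = c ∨ (C a x ∧ C c x) ∨ (C b x ∧ C c x) ∨ (C a x ∧ C b x ∧ C e x ∧ C p x) ∨ (C c x ∧ C p x) ∨ x = p) :
    Good C S := by
  have ma : S a := (hS _).2 (Or.inl rfl)
  have mb : S b := (hS _).2 (Or.inr (Or.inl rfl))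
  have mc : S c := (hS _).2 (Or.inr (Or.inr (Or.inl rfl)))
  have mp : S p := (hS _).2 (Or.inr (Or.inr (Or.inr (Or.inr (Or.inr (Or.inr (Or.inr rfl)))))))
  have mq : S q := (hS _).2 (Or.inr (Or.inr (Or.inr (Or.inl ⟨haq, hcq⟩))))
  have md : S d := (hS _).2 (Or.inr (Or.inr (Or.inr (Or.inr (Or.inl ⟨hbd, hcd⟩)))))
  have me : S e := (hS _).2 (Or.inr (Or.inr (Or.inr (Or.inl ⟨hae, hce⟩))))
  have mt : S t := (hS _).2 (Or.inr (Or.inr (Or.inr (Or.inr (Or.inr (Or.inr (Or.inl ⟨hct, hpt⟩)))))))
  intro x hx y hy
  have hx := (hS x).1 hx
  have hy := (hS y).1 hy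
  clear hS
  rcases hx with hx | hx | hx | ⟨hx1, hx2⟩ | ⟨hx1, hx2⟩ | ⟨hx1, hx2, hx3, hx4⟩ | ⟨hx1, hx2⟩ | hx <;>
  (try (have ex := hx.symm; clear hx; subst ex)) <;>
  rcases hy with hy | hy | hy | ⟨hy1, hy2⟩ | ⟨hy1, hy2⟩ | ⟨hy1, hy2, hy3, hy4⟩ | ⟨hy1, hy2⟩ | hy <;>
  (try (have ey := hy.symm; clear hy; subst ey)) <;>
  first
    | exact near_refl _
    | assumption
    | exact near_adj (by assumption)
    | exact near_adj (Cs (by assumption))
    | exact near_hub a ma (by first | assumption | exact Cs (by assumption))
        (by first | assumption | exact Cs (by assumption))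
    | exact near_hub b mb (by first | assumption | exact Cs (by assumption))
        (by first | assumption | exact Cs (by assumption))
    | exact near_hub c mc (by first | assumption | exact Cs (by assumption))
        (by first | assumption | exact Cs (by assumption))
    | exact near_hub p mp (by first | assumption | exact Cs (by assumption))
        (by first | assumption | exact Cs (by assumption))
    | exact near_hub q mq (by first | assumption | exact Cs (by assumption))
        (by first | assumption | exact Cs (by assumption))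
    | exact near_hub d md (by first | assumption | exact Cs (by assumption))
        (by first | assumption | exact Cs (by assumption))
    | exact near_hub e me (by first | assumption | exact Cs (by assumption))
        (by first | assumption | exact Cs (by assumption))
    | exact near_hub t mt (by first | assumption | exact Cs (by assumption))
        (by first | assumption | exact Cs (by assumption))

/-- types `u`, `w`, `z`, `p`, `(w z)`, `(u z p)`, `(w p)` -/
theorem g5 (Cs : ∀ {x y}, C x y → C y x) {u w z p s : V}
    (huw : C u w) (hup : C u p) (hzp : C z p) (hws : C w s) (hzs : C z s)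
    (S : V → Prop)
    (hS : ∀ x, S x ↔ x = u ∨ x = w ∨ x = z ∨ x = p ∨ (C w x ∧ C z x) ∨ (C u x ∧ C z x ∧ C p x) ∨ (C w x ∧ C p x)) :
    Good C S := by
  have mu : S u := (hS _).2 (Or.inl rfl)
  have mw : S w := (hS _).2 (Or.inr (Or.inl rfl))
  have mz : S z := (hS _).2 (Or.inr (Or.inr (Or.inl rfl)))
  have mp : S p := (hS _).2 (Or.inr (Or.inr (Or.inr (Or.inl rfl))))
  have ms : S s := (hS _).2 (Or.inr (Or.inr (Or.inr (Or.inr (Or.inl ⟨hws, hzs⟩)))))
  intro x hx y hy
  have hx := (hS x).1 hx
  have hy := (hS y).1 hy
  clear hS
  rcases hx with hx | hx | hx | hx | ⟨hx1, hx2⟩ | ⟨hx1, hx2, hx3⟩ | ⟨hx1, hx2⟩ <;>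
  (try (have ex := hx.symm; clear hx; subst ex)) <;>
  rcases hy with hy | hy | hy | hy | ⟨hy1, hy2⟩ | ⟨hy1, hy2, hy3⟩ | ⟨hy1, hy2⟩ <;>
  (try (have ey := hy.symm; clear hy; subst ey)) <;>
  first
    | exact near_refl _
    | assumption
    | exact near_adj (by assumption)
    | exact near_adj (Cs (by assumption))
    | exact near_hub u mu (by first | assumption | exact Cs (by assumption))
        (by first | assumption | exact Cs (by assumption))
    | exact near_hub w mw (by first | assumption | exact Cs (by assumption))
        (by first | assumption | exact Cs (by assumption))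
    | exact near_hub z mz (by first | assumption | exact Cs (by assumption))
        (by first | assumption | exact Cs (by assumption))
    | exact near_hub p mp (by first | assumption | exact Cs (by assumption))
        (by first | assumption | exact Cs (by assumption))
    | exact near_hub s ms (by first | assumption | exact Cs (by assumption))
        (by first | assumption | exact Cs (by assumption))

/-- types `w`, `u`, `v`, `z`, `t`, `(u v)`, `(w v z)`, `(w v t)`, `(u z t)` -/
theorem g6 (Cs : ∀ {x y}, C x y → C y x) {w u v z t s q b : V}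
    (huw : C u w) (hvz : C v z) (hwt : C w t) (hvt : C v t) (hws : C w s) (hvs : C v s) (hzs : C z s) (huq : C u q) (hvq : C v q) (hub : C u b) (hzb : C z b) (htb : C t b)
    (S : V → Prop)
    (hS : ∀ x, S x ↔ x = w ∨ x = u ∨ x = v ∨ x = z ∨ x = t ∨ (C u x ∧ C v x) ∨ (C w x ∧ C v x ∧ C z x) ∨ (C w x ∧ C v x ∧ C t x) ∨ (C u x ∧ C z x ∧ C t x)) :
    Good C S := by
  have mw : S w := (hS _).2 (Or.inl rfl)
  have mu : S u := (hS _).2 (Or.inr (Or.inl rfl))
  have mv : S v := (hS _).2 (Or.inr (Or.inr (Or.inl rfl)))
  have mz : S z := (hS _).2 (Or.inr (Or.inr (Or.inr (Or.inl rfl))))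
  have mt : S t := (hS _).2 (Or.inr (Or.inr (Or.inr (Or.inr (Or.inl rfl)))))
  have mq : S q := (hS _).2 (Or.inr (Or.inr (Or.inr (Or.inr (Or.inr (Or.inl ⟨huq, hvq⟩))))))
  have ms : S s := (hS _).2 (Or.inr (Or.inr (Or.inr (Or.inr (Or.inr (Or.inr (Or.inl ⟨hws, hvs, hzs⟩)))))))
  have mb : S b := (hS _).2 (Or.inr (Or.inr (Or.inr (Or.inr (Or.inr (Or.inr (Or.inr (Or.inr ⟨hub, hzb, htb⟩))))))))
  intro x hx y hy
  have hx := (hS x).1 hx
  have hy := (hS y).1 hy
  clear hS
  rcases hx with hx | hx | hx | hx | hx | ⟨hx1, hx2⟩ | ⟨hx1, hx2, hx3⟩ | ⟨hx1, hx2, hx3⟩ | ⟨hx1, hx2, hx3⟩ <;>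
  (try (have ex := hx.symm; clear hx; subst ex)) <;>
  rcases hy with hy | hy | hy | hy | hy | ⟨hy1, hy2⟩ | ⟨hy1, hy2, hy3⟩ | ⟨hy1, hy2, hy3⟩ | ⟨hy1, hy2, hy3⟩ <;>
  (try (have ey := hy.symm; clear hy; subst ey)) <;>
  first
    | exact near_refl _
    | assumption
    | exact near_adj (by assumption)
    | exact near_adj (Cs (by assumption))
    | exact near_hub w mw (by first | assumption | exact Cs (by assumption))
        (by first | assumption | exact Cs (by assumption))
    | exact near_hub u mu (by first | assumption | exact Cs (by assumption))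
        (by first | assumption | exact Cs (by assumption))
    | exact near_hub v mv (by first | assumption | exact Cs (by assumption))
        (by first | assumption | exact Cs (by assumption))
    | exact near_hub z mz (by first | assumption | exact Cs (by assumption))
        (by first | assumption | exact Cs (by assumption))
    | exact near_hub t mt (by first | assumption | exact Cs (by assumption))
        (by first | assumption | exact Cs (by assumption))
    | exact near_hub q mq (by first | assumption | exact Cs (by assumption))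
        (by first | assumption | exact Cs (by assumption))
    | exact near_hub s ms (by first | assumption | exact Cs (by assumption))
        (by first | assumption | exact Cs (by assumption))
    | exact near_hub b mb (by first | assumption | exact Cs (by assumption))
        (by first | assumption | exact Cs (by assumption))

/-- types `u`, `w`, `v`, `(u v)`, `(w v)` -/
theorem g7 (Cs : ∀ {x y}, C x y → C y x) {u w v q s : V}
    (huw : C u w) (huq : C u q) (hvq : C v q) (hws : C w s) (hvs : C v s)
    (S : V → Prop)
    (hS : ∀ x, S x ↔ x = u ∨ x = w ∨ x = v ∨ (C u x ∧ C v x) ∨ (C w x ∧ C v x)) :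
    Good C S := by
  have mu : S u := (hS _).2 (Or.inl rfl)
  have mw : S w := (hS _).2 (Or.inr (Or.inl rfl))
  have mv : S v := (hS _).2 (Or.inr (Or.inr (Or.inl rfl)))
  have mq : S q := (hS _).2 (Or.inr (Or.inr (Or.inr (Or.inl ⟨huq, hvq⟩))))
  have ms : S s := (hS _).2 (Or.inr (Or.inr (Or.inr (Or.inr ⟨hws, hvs⟩))))
  intro x hx y hy
  have hx := (hS x).1 hx
  have hy := (hS y).1 hy
  clear hS
  rcases hx with hx | hx | hx | ⟨hx1, hx2⟩ | ⟨hx1, hx2⟩ <;>
  (try (have ex := hx.symm; clear hx; subst ex)) <;>
  rcases hy with hy | hy | hy | ⟨hy1, hy2⟩ | ⟨hy1, hy2⟩ <;>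
  (try (have ey := hy.symm; clear hy; subst ey)) <;>
  first
    | exact near_refl _
    | assumption
    | exact near_adj (by assumption)
    | exact near_adj (Cs (by assumption))
    | exact near_hub u mu (by first | assumption | exact Cs (by assumption))
        (by first | assumption | exact Cs (by assumption))
    | exact near_hub w mw (by first | assumption | exact Cs (by assumption))
        (by first | assumption | exact Cs (by assumption))
    | exact near_hub v mv (by first | assumption | exact Cs (by assumption))
        (by first | assumption | exact Cs (by assumption))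
    | exact near_hub q mq (by first | assumption | exact Cs (by assumption))
        (by first | assumption | exact Cs (by assumption))
    | exact near_hub s ms (by first | assumption | exact Cs (by assumption))
        (by first | assumption | exact Cs (by assumption))

/-- types `u`, `w`, `v`, `z`, `(u z)`, `(u v)`, `(w v z)` -/
theorem g2 (Cs : ∀ {x y}, C x y → C y x) {u w v z q p s : V}
    (huw : C u w) (hvz : C v z) (huq : C u q) (hvq : C v q) (hup : C u p) (hzp : C z p) (hws : C w s) (hvs : C v s) (hzs : C z s)
    (S : V → Prop)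
    (hS : ∀ x, S x ↔ x = u ∨ x = w ∨ x = v ∨ x = z ∨ (C u x ∧ C z x) ∨ (C u x ∧ C v x) ∨ (C w x ∧ C v x ∧ C z x)) :
    Good C S := by
  have mu : S u := (hS _).2 (Or.inl rfl)
  have mw : S w := (hS _).2 (Or.inr (Or.inl rfl))
  have mv : S v := (hS _).2 (Or.inr (Or.inr (Or.inl rfl)))
  have mz : S z := (hS _).2 (Or.inr (Or.inr (Or.inr (Or.inl rfl))))
  have mp : S p := (hS _).2 (Or.inr (Or.inr (Or.inr (Or.inr (Or.inl ⟨hup, hzp⟩)))))
  have mq : S q := (hS _).2 (Or.inr (Or.inr (Or.inr (Or.inr (Or.inr (Or.inl ⟨huq, hvq⟩))))))
  have ms : S s := (hS _).2 (Or.inr (Or.inr (Or.inr (Or.inr (Or.inr (Or.inr ⟨hws, hvs, hzs⟩))))))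
  intro x hx y hy
  have hx := (hS x).1 hx
  have hy := (hS y).1 hy
  clear hS
  rcases hx with hx | hx | hx | hx | ⟨hx1, hx2⟩ | ⟨hx1, hx2⟩ | ⟨hx1, hx2, hx3⟩ <;>
  (try (have ex := hx.symm; clear hx; subst ex)) <;>
  rcases hy with hy | hy | hy | hy | ⟨hy1, hy2⟩ | ⟨hy1, hy2⟩ | ⟨hy1, hy2, hy3⟩ <;>
  (try (have ey := hy.symm; clear hy; subst ey)) <;>
  first
    | exact near_refl _
    | assumption
    | exact near_adj (by assumption)
    | exact near_adj (Cs (by assumption))
    | exact near_hub u mu (by first | assumption | exact Cs (by assumption))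
        (by first | assumption | exact Cs (by assumption))
    | exact near_hub w mw (by first | assumption | exact Cs (by assumption))
        (by first | assumption | exact Cs (by assumption))
    | exact near_hub v mv (by first | assumption | exact Cs (by assumption))
        (by first | assumption | exact Cs (by assumption))
    | exact near_hub z mz (by first | assumption | exact Cs (by assumption))
        (by first | assumption | exact Cs (by assumption))
    | exact near_hub p mp (by first | assumption | exact Cs (by assumption))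
        (by first | assumption | exact Cs (by assumption))
    | exact near_hub q mq (by first | assumption | exact Cs (by assumption))
        (by first | assumption | exact Cs (by assumption))
    | exact near_hub s ms (by first | assumption | exact Cs (by assumption))
        (by first | assumption | exact Cs (by assumption))

/-- types `u`, `w`, `v`, `z`, `t`, `(v u)`, `(v w)` -/
theorem g8 (Cs : ∀ {x y}, C x y → C y x) {u w v z t q s : V}
    (huw : C u w) (hvz : C v z) (hut : C u t) (hwt : C w t) (hzt : C z t) (hvq : C v q) (huq : C u q) (hvs : C v s) (hws : C w s)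
    (S : V → Prop)
    (hS : ∀ x, S x ↔ x = u ∨ x = w ∨ x = v ∨ x = z ∨ x = t ∨ (C v x ∧ C u x) ∨ (C v x ∧ C w x)) :
    Good C S := by
  have mu : S u := (hS _).2 (Or.inl rfl)
  have mw : S w := (hS _).2 (Or.inr (Or.inl rfl))
  have mv : S v := (hS _).2 (Or.inr (Or.inr (Or.inl rfl)))
  have mz : S z := (hS _).2 (Or.inr (Or.inr (Or.inr (Or.inl rfl))))
  have mt : S t := (hS _).2 (Or.inr (Or.inr (Or.inr (Or.inr (Or.inl rfl)))))
  have mq : S q := (hS _).2 (Or.inr (Or.inr (Or.inr (Or.inr (Or.inr (Or.inl ⟨hvq, huq⟩))))))
  have ms : S s := (hS _).2 (Or.inr (Or.inr (Or.inr (Or.inr (Or.inr (Or.inr ⟨hvs, hws⟩))))))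
  intro x hx y hy
  have hx := (hS x).1 hx
  have hy := (hS y).1 hy
  clear hS
  rcases hx with hx | hx | hx | hx | hx | ⟨hx1, hx2⟩ | ⟨hx1, hx2⟩ <;>
  (try (have ex := hx.symm; clear hx; subst ex)) <;>
  rcases hy with hy | hy | hy | hy | hy | ⟨hy1, hy2⟩ | ⟨hy1, hy2⟩ <;>
  (try (have ey := hy.symm; clear hy; subst ey)) <;>
  first
    | exact near_refl _
    | assumption
    | exact near_adj (by assumption)
    | exact near_adj (Cs (by assumption))
    | exact near_hub u mu (by first | assumption | exact Cs (by assumption))
        (by first | assumption | exact Cs (by assumption))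
    | exact near_hub w mw (by first | assumption | exact Cs (by assumption))
        (by first | assumption | exact Cs (by assumption))
    | exact near_hub v mv (by first | assumption | exact Cs (by assumption))
        (by first | assumption | exact Cs (by assumption))
    | exact near_hub z mz (by first | assumption | exact Cs (by assumption))
        (by first | assumption | exact Cs (by assumption))
    | exact near_hub t mt (by first | assumption | exact Cs (by assumption))
        (by first | assumption | exact Cs (by assumption))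
    | exact near_hub q mq (by first | assumption | exact Cs (by assumption))
        (by first | assumption | exact Cs (by assumption))
    | exact near_hub s ms (by first | assumption | exact Cs (by assumption))
        (by first | assumption | exact Cs (by assumption))

/-- types `u`, `t`, `v`, `z`, `(v u)` -/
theorem g9 (Cs : ∀ {x y}, C x y → C y x) {u t v z q : V}
    (hut : C u t) (hvz : C v z) (hzt : C z t) (hvq : C v q) (huq : C u q)
    (S : V → Prop)
    (hS : ∀ x, S x ↔ x = u ∨ x = t ∨ x = v ∨ x = z ∨ (C v x ∧ C u x)) :
    Good C S := by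
  have mu : S u := (hS _).2 (Or.inl rfl)
  have mt : S t := (hS _).2 (Or.inr (Or.inl rfl))
  have mv : S v := (hS _).2 (Or.inr (Or.inr (Or.inl rfl)))
  have mz : S z := (hS _).2 (Or.inr (Or.inr (Or.inr (Or.inl rfl))))
  have mq : S q := (hS _).2 (Or.inr (Or.inr (Or.inr (Or.inr ⟨hvq, huq⟩))))
  intro x hx y hy
  have hx := (hS x).1 hx
  have hy := (hS y).1 hy
  clear hS
  rcases hx with hx | hx | hx | hx | ⟨hx1, hx2⟩ <;>
  (try (have ex := hx.symm; clear hx; subst ex)) <;>
  rcases hy with hy | hy | hy | hy | ⟨hy1, hy2⟩ <;>
  (try (have ey := hy.symm; clear hy; subst ey)) <;>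
  first
    | exact near_refl _
    | assumption
    | exact near_adj (by assumption)
    | exact near_adj (Cs (by assumption))
    | exact near_hub u mu (by first | assumption | exact Cs (by assumption))
        (by first | assumption | exact Cs (by assumption))
    | exact near_hub t mt (by first | assumption | exact Cs (by assumption))
        (by first | assumption | exact Cs (by assumption))
    | exact near_hub v mv (by first | assumption | exact Cs (by assumption))
        (by first | assumption | exact Cs (by assumption))
    | exact near_hub z mz (by first | assumption | exact Cs (by assumption))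
        (by first | assumption | exact Cs (by assumption))
    | exact near_hub q mq (by first | assumption | exact Cs (by assumption))
        (by first | assumption | exact Cs (by assumption))

/-- types `u`, `w`, `v`, `z`, `(v u)`, `(v w)` -/
theorem g10 (Cs : ∀ {x y}, C x y → C y x) {u w v z a b : V}
    (huw : C u w) (hvz : C v z) (hva : C v a) (hua : C u a) (hza : C z a) (hvb : C v b) (hwb : C w b) (hzb : C z b)
    (S : V → Prop)
    (hS : ∀ x, S x ↔ x = u ∨ x = w ∨ x = v ∨ x = z ∨ (C v x ∧ C u x) ∨ (C v x ∧ C w x)) :
    Good C S := by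
  have mu : S u := (hS _).2 (Or.inl rfl)
  have mw : S w := (hS _).2 (Or.inr (Or.inl rfl))
  have mv : S v := (hS _).2 (Or.inr (Or.inr (Or.inl rfl)))
  have mz : S z := (hS _).2 (Or.inr (Or.inr (Or.inr (Or.inl rfl))))
  have ma : S a := (hS _).2 (Or.inr (Or.inr (Or.inr (Or.inr (Or.inl ⟨hva, hua⟩)))))
  have mb : S b := (hS _).2 (Or.inr (Or.inr (Or.inr (Or.inr (Or.inr ⟨hvb, hwb⟩)))))
  intro x hx y hy
  have hx := (hS x).1 hx
  have hy := (hS y).1 hy
  clear hS
  rcases hx with hx | hx | hx | hx | ⟨hx1, hx2⟩ | ⟨hx1, hx2⟩ <;>
  (try (have ex := hx.symm; clear hx; subst ex)) <;>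
  rcases hy with hy | hy | hy | hy | ⟨hy1, hy2⟩ | ⟨hy1, hy2⟩ <;>
  (try (have ey := hy.symm; clear hy; subst ey)) <;>
  first
    | exact near_refl _
    | assumption
    | exact near_adj (by assumption)
    | exact near_adj (Cs (by assumption))
    | exact near_hub u mu (by first | assumption | exact Cs (by assumption))
        (by first | assumption | exact Cs (by assumption))
    | exact near_hub w mw (by first | assumption | exact Cs (by assumption))
        (by first | assumption | exact Cs (by assumption))
    | exact near_hub v mv (by first | assumption | exact Cs (by assumption))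
        (by first | assumption | exact Cs (by assumption))
    | exact near_hub z mz (by first | assumption | exact Cs (by assumption))
        (by first | assumption | exact Cs (by assumption))
    | exact near_hub a ma (by first | assumption | exact Cs (by assumption))
        (by first | assumption | exact Cs (by assumption))
    | exact near_hub b mb (by first | assumption | exact Cs (by assumption))
        (by first | assumption | exact Cs (by assumption))

/-- types `w`, `z`, `v`, `(z w)` -/
theorem g11 (Cs : ∀ {x y}, C x y → C y x) {w z v s : V}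
    (hvz : C v z) (hzs : C z s) (hws : C w s) (hvs : C v s)
    (S : V → Prop)
    (hS : ∀ x, S x ↔ x = w ∨ x = z ∨ x = v ∨ (C z x ∧ C w x)) :
    Good C S := by
  have mw : S w := (hS _).2 (Or.inl rfl)
  have mz : S z := (hS _).2 (Or.inr (Or.inl rfl))
  have mv : S v := (hS _).2 (Or.inr (Or.inr (Or.inl rfl)))
  have ms : S s := (hS _).2 (Or.inr (Or.inr (Or.inr ⟨hzs, hws⟩)))
  intro x hx y hy
  have hx := (hS x).1 hx
  have hy := (hS y).1 hy
  clear hS
  rcases hx with hx | hx | hx | ⟨hx1, hx2⟩ <;>
  (try (have ex := hx.symm; clear hx; subst ex)) <;>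
  rcases hy with hy | hy | hy | ⟨hy1, hy2⟩ <;>
  (try (have ey := hy.symm; clear hy; subst ey)) <;>
  first
    | exact near_refl _
    | assumption
    | exact near_adj (by assumption)
    | exact near_adj (Cs (by assumption))
    | exact near_hub w mw (by first | assumption | exact Cs (by assumption))
        (by first | assumption | exact Cs (by assumption))
    | exact near_hub z mz (by first | assumption | exact Cs (by assumption))
        (by first | assumption | exact Cs (by assumption))
    | exact near_hub v mv (by first | assumption | exact Cs (by assumption))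
        (by first | assumption | exact Cs (by assumption))
    | exact near_hub s ms (by first | assumption | exact Cs (by assumption))
        (by first | assumption | exact Cs (by assumption))

/-- types `a`, `c`, `(a c)`, and `a` with a neighbour of type `(a c)` -/
theorem g4 (Cs : ∀ {x y}, C x y → C y x) {a c p : V} (hap : C a p) (hcp : C c p) :
    Good C (fun x => x = a ∨ x = c ∨ (C a x ∧ (C c x ∨ ∃ y, C a y ∧ C c y ∧ C x y))) := by
  have ma : (fun x => x = a ∨ x = c ∨ (C a x ∧ (C c x ∨ ∃ y, C a y ∧ C c y ∧ C x y))) a :=
    Or.inl rfl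
  have mc : ∀ x, C a x → (C c x ∨ ∃ y, C a y ∧ C c y ∧ C x y) →
      Near C (fun x => x = a ∨ x = c ∨ (C a x ∧ (C c x ∨ ∃ y, C a y ∧ C c y ∧ C x y))) c x := by
    rintro x _ (h | ⟨y, h1, h2, h3⟩)
    · exact near_adj h
    · exact near_hub y (Or.inr (Or.inr ⟨h1, Or.inl h2⟩)) (Cs h2) (Cs h3)
  have mac : Near C (fun x => x = a ∨ x = c ∨ (C a x ∧ (C c x ∨ ∃ y, C a y ∧ C c y ∧ C x y)))
      a c := near_hub p (Or.inr (Or.inr ⟨hap, Or.inl hcp⟩)) (Cs hap) (Cs hcp)
  rintro x (hx | hx | ⟨hx1, hx2⟩) y (hy | hy | ⟨hy1, hy2⟩)
  · exact near_eq hx hy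
  · rw [hx, hy]; exact mac
  · exact near_l hx hy1
  · rw [hx, hy]; exact near_symm Cs mac
  · exact near_eq hx hy
  · rw [hx]; exact mc y hy1 hy2
  · exact near_symm Cs (near_l hy hx1)
  · rw [hy]; exact near_symm Cs (mc x hx1 hx2)
  · exact near_hub a ma hx1 hy1

end Pool.Agent.T6.H98.CP
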